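import Pool.Agent.H96.RE.Defs

/-!
Definitions for the lifting theorem (helper49; project MP_28250c_LF; no row).  Proof: /team-store/H49_Lifting.md.
A block has `b = 2 s + 1` bits; points of all blocks are `x : Fin n → Fin b → ZMod 2`, or flattened `z : Fin (n * b) → ZMod 2`.
-/

set_option autoImplicit false
open scoped Classical

namespace H49LF

open H96RE

/-- the support of a vector -/
def supp {b : ℕ} (u : Fin b → ZMod 2) : Finset (Fin b) := Finset.univ.filter (fun j => u j = 1)

/-- majority: more than `s` ones -/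
noncomputable def mj {b : ℕ} (s : ℕ) (u : Fin b → ZMod 2) : ZMod 2 := if s < (supp u).card then 1 else 0

/-- add `c` to all coordinates -/
def sh {b : ℕ} (c : ZMod 2) (u : Fin b → ZMod 2) : Fin b → ZMod 2 := fun j => u j + c

/-- interpolation kernel: `∑ u', kk s c u u' ψ u'` is the function of degree `≤ s` which agrees with `ψ` on `{mj = c}` -/
noncomputable def kk {b : ℕ} (s : ℕ) (c : ZMod 2) (u u' : Fin b → ZMod 2) : ZMod 2 :=
  (((Finset.univ.filter (fun T : Finset (Fin b) =>
    supp (sh c u') ⊆ T ∧ T ⊆ supp (sh c u) ∧ T.card ≤ s)).card : ℕ) : ZMod 2)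

/-- flatten a point -/
def flat {n b : ℕ} (x : Fin n → Fin b → ZMod 2) : Fin (n * b) → ZMod 2 :=
  fun k => x (finProdFinEquiv.symm k).1 (finProdFinEquiv.symm k).2

/-- the majorities of the blocks -/
noncomputable def yv {n b : ℕ} (s : ℕ) (z : Fin (n * b) → ZMod 2) : Fin n → ZMod 2 :=
  fun i => mj s (fun j => z (finProdFinEquiv (i, j)))

/-- the interpolation operator from the points with majorities `c` -/
noncomputable def Rop {n b : ℕ} (s : ℕ) (c : Fin n → ZMod 2) (φ : (Fin (n * b) → ZMod 2) → ZMod 2)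
    (x : Fin n → Fin b → ZMod 2) : ZMod 2 :=
  ∑ x' : Fin n → Fin b → ZMod 2, (∏ i, kk s (c i) (x i) (x' i)) * φ (flat x')

/-- the part of `T` in the block `i` -/
def blkT {n b : ℕ} (T : Finset (Fin (n * b))) (i : Fin n) : Finset (Fin b) :=
  Finset.univ.filter (fun j => finProdFinEquiv (i, j) ∈ T)

/-- at most `s` elements in every block -/
def TT (n b s : ℕ) : Set (Finset (Fin (n * b))) := {T | ∀ i, (blkT T i).card ≤ s}

/-- the functions `φ` such that for all `x` the function `c ↦ Rop c φ x` is in `W` -/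
noncomputable def FF {n b : ℕ} (s : ℕ) (W : Submodule (ZMod 2) ((Fin n → ZMod 2) → ZMod 2)) :
    Submodule (ZMod 2) ((Fin (n * b) → ZMod 2) → ZMod 2) where
  carrier := {φ | ∀ x, (fun c => Rop s c φ x) ∈ W}
  add_mem' := by
    intro φ ψ hφ hψ x
    have h : (fun c => Rop s c (φ + ψ) x) = (fun c => Rop s c φ x) + fun c => Rop s c ψ x := by
      funext c
      rw [Pi.add_apply]
      unfold Rop
      rw [← Finset.sum_add_distrib]
      exact Finset.sum_congr rfl fun x' _ => by rw [Pi.add_apply, mul_add]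
    rw [h]
    exact W.add_mem (hφ x) (hψ x)
  zero_mem' := by
    intro x
    have h : (fun c => Rop s c (0 : (Fin (n * b) → ZMod 2) → ZMod 2) x) = 0 := by
      funext c
      unfold Rop
      exact Finset.sum_eq_zero fun x' _ => by rw [Pi.zero_apply, mul_zero]
    rw [h]
    exact W.zero_mem
  smul_mem' := by
    intro a φ hφ x
    have h : (fun c => Rop s c (a • φ) x) = a • fun c => Rop s c φ x := by
      funext c
      rw [Pi.smul_apply, smul_eq_mul]
      unfold Rop
      rw [Finset.mul_sum]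
      refine Finset.sum_congr rfl fun x' _ => ?_
      rw [Pi.smul_apply, smul_eq_mul]
      ring
    rw [h]
    exact W.smul_mem a (hφ x)

theorem mem_FF {n b : ℕ} {s : ℕ} {W : Submodule (ZMod 2) ((Fin n → ZMod 2) → ZMod 2)}
    {φ : (Fin (n * b) → ZMod 2) → ZMod 2} : φ ∈ FF s W ↔ ∀ x, (fun c => Rop s c φ x) ∈ W := Iff.rfl

theorem FF_mono {n b : ℕ} {s : ℕ} {W W' : Submodule (ZMod 2) ((Fin n → ZMod 2) → ZMod 2)} (h : W ≤ W') :
    (FF s W : Submodule (ZMod 2) ((Fin (n * b) → ZMod 2) → ZMod 2)) ≤ FF s W' := fun _ hφ x => h (hφ x)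

end H49LF
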