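import Pool.Agent.H49.LF.Stmt
import Pool.Agent.H49.LF.Defs
import Pool.Agent.H96.RE.PCmul

/-!
ROW Bridge (from the definitions of Stmt.lean to those of the proof; about 170 lines).  PROOF.
`DegLE_iff`: `→`: `g = ∑ T, a T • mono T` over the `T` with `T.card ≤ d` (`Submodule.sum_mem`, `smul_mem`, `mono_mem`).  `←`: `Submodule.span_induction` (`DegLE` contains
`mono T` (coefficient `1` at `T`, else `0`), `0`, sums, multiples).
`DegLE_flat`: with `V = Fin n × Fin b` and `π = finProdFinEquiv`: `∏_(v ∈ T) z (π v) = mono (T.map π.toEmbedding) z`, same cardinality.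
`maj_eq`: `2 s + 1 < 2 c ↔ s < c`.
`cS C` the variables of `C`, `cσ C v = 1` if `(v, 0) ∈ C`, else `0`.  `holds_iff`: if `C` is not a tautology (`Taut C`: some `(v, 0)`, `(v, 1)` both in `C`):
`¬ C.Holds x ↔ ∀ v ∈ cS C, x v = cσ C v`: a literal `(v, a)` is false at `x` iff `x v = a + 1`, and `cσ C v = a + 1` if `(v, a) ∈ C`.
`PC_bridge`: `{p | MajorityLifting.PC 𝒞 t p}` is a subspace (`c • p` is `0` or `p`) with the two closure properties in the definition of `H96RE.PC`
(`indic (falseSet (cS C) (cσ C)) = fun x => if C.Holds x then 0 else 1` by `holds_iff`; `C.card ≤ t`; `DegLE_iff`), so `H96RE.PC … ≤` it (`sInf_le`).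
`line_bridge`: the false set of the line `L` at `z` (coordinates `z (π (i, j))`) is `{z | (∀ p ∈ P, p z = 0) ∧ h z = 0}` with `P = {1 + g | g ∈ L.E}`, `h = 1 + L.p` (transported to
`Fin (n * b)`): in `ZMod 2`, `g z ≠ 0 ↔ 1 + g z = 0`.
-/

set_option autoImplicit false
open scoped Classical

namespace H49LF

open H96RE

/-- transport a point of `Fin (n * b)` to `Fin n × Fin b` -/
def unfl {n b : ℕ} (z : Fin (n * b) → ZMod 2) : MajorityLifting.Pt (Fin n × Fin b) := fun v => z (finProdFinEquiv v)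

/-- the clause contains a variable in both ways -/
def Taut {n : ℕ} (C : MajorityLifting.Clause (Fin n)) : Prop := ∃ v, (v, (0 : ZMod 2)) ∈ C ∧ (v, (1 : ZMod 2)) ∈ C

/-- the variables of a clause -/
noncomputable def cS {n : ℕ} (C : MajorityLifting.Clause (Fin n)) : Finset (Fin n) := C.image Prod.fst

/-- the falsifying values of a clause -/
noncomputable def cσ {n : ℕ} (C : MajorityLifting.Clause (Fin n)) (v : Fin n) : ZMod 2 := if (v, (0 : ZMod 2)) ∈ C then 1 else 0

private theorem Bridge_z2 (a : ZMod 2) : a = 0 ∨ a = 1 := by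
  revert a
  decide

theorem DegLE_iff {n d : ℕ} {g : (Fin n → ZMod 2) → ZMod 2} : MajorityLifting.DegLE (V := Fin n) d g ↔ g ∈ Pol n d := by
  constructor
  · rintro ⟨a, ha⟩
    have h1 : g = ∑ T ∈ Finset.univ.filter (fun T : Finset (Fin n) => T.card ≤ d), a T • mono T := by
      funext x
      rw [ha x, Finset.sum_apply]
      exact Finset.sum_congr rfl fun T _ => by rw [Pi.smul_apply, smul_eq_mul]; rfl
    rw [h1]
    exact Submodule.sum_mem _ fun T hT => Submodule.smul_mem _ _ (mono_mem (Finset.mem_filter.mp hT).2)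
  · intro hg
    unfold Pol at hg
    induction hg using Submodule.span_induction with
    | mem h hh =>
      obtain ⟨T, hT, rfl⟩ := hh
      have hT' : T.card ≤ d := hT
      refine ⟨fun T' => if T' = T then 1 else 0, fun x => ?_⟩
      rw [Finset.sum_eq_single T]
      · show mono T x = (if T = T then (1 : ZMod 2) else 0) * ∏ v ∈ T, x v
        rw [if_pos rfl, one_mul]; rfl
      · intro T' _ hne
        show (if T' = T then (1 : ZMod 2) else 0) * ∏ v ∈ T', x v = 0
        rw [if_neg hne, zero_mul]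
      · intro hn
        exact (hn (Finset.mem_filter.mpr ⟨Finset.mem_univ T, hT'⟩)).elim
    | zero => exact ⟨fun _ => 0, fun x => by simp⟩
    | add u v _ _ hu hv =>
      obtain ⟨a, ha⟩ := hu
      obtain ⟨a', ha'⟩ := hv
      refine ⟨fun T => a T + a' T, fun x => ?_⟩
      rw [Pi.add_apply, ha x, ha' x, ← Finset.sum_add_distrib]
      exact Finset.sum_congr rfl fun T _ => by ring
    | smul c u _ hu =>
      obtain ⟨a, ha⟩ := hu
      refine ⟨fun T => c * a T, fun x => ?_⟩
      rw [Pi.smul_apply, smul_eq_mul, ha x, Finset.mul_sum]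
      exact Finset.sum_congr rfl fun T _ => by ring

theorem DegLE_flat {n b d : ℕ} {g : MajorityLifting.Pt (Fin n × Fin b) → ZMod 2} (h : MajorityLifting.DegLE d g) :
    (fun z : Fin (n * b) → ZMod 2 => g (unfl z)) ∈ Pol (n * b) d := by
  obtain ⟨a, ha⟩ := h
  have h1 : (fun z : Fin (n * b) → ZMod 2 => g (unfl z)) =
      ∑ T ∈ Finset.univ.filter (fun T : Finset (Fin n × Fin b) => T.card ≤ d),
        a T • mono (T.map finProdFinEquiv.toEmbedding) := by
    funext z
    rw [ha, Finset.sum_apply]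
    refine Finset.sum_congr rfl fun T _ => ?_
    rw [Pi.smul_apply, smul_eq_mul]
    unfold mono unfl
    rw [Finset.prod_map]
    rfl
  rw [h1]
  refine Submodule.sum_mem _ fun T hT => Submodule.smul_mem _ _ (mono_mem ?_)
  rw [Finset.card_map]
  exact (Finset.mem_filter.mp hT).2

theorem maj_eq {b s : ℕ} (hb : b = 2 * s + 1) (u : Fin b → ZMod 2) : MajorityLifting.maj u = mj s u := by
  unfold MajorityLifting.maj mj supp
  have : (b < 2 * (Finset.univ.filter (fun j => u j = 1)).card) ↔
      (s < (Finset.univ.filter (fun j => u j = 1)).card) := by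
    constructor
    · intro h; omega
    · intro h; omega
  exact if_congr this rfl rfl

theorem card_cS {n : ℕ} (C : MajorityLifting.Clause (Fin n)) : (cS C).card ≤ C.card :=
  Finset.card_image_le

theorem holds_iff {n : ℕ} {C : MajorityLifting.Clause (Fin n)} (hC : ¬ Taut C) (x : Fin n → ZMod 2) :
    ¬ MajorityLifting.Clause.Holds C x ↔ ∀ v ∈ cS C, x v = cσ C v := by
  constructor
  · intro h v hv
    obtain ⟨l, hl, hlv⟩ := Finset.mem_image.mp hv
    obtain ⟨v', a⟩ := l
    have hv' : v' = v := hlv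
    subst hv'
    have hxa : x v' ≠ a := fun hh => h ⟨(v', a), hl, hh⟩
    unfold cσ
    rcases Bridge_z2 a with ha | ha
    · subst ha
      rw [if_pos hl]
      exact (Bridge_z2 (x v')).resolve_left hxa
    · subst ha
      rw [if_neg (fun h0 => hC ⟨v', h0, hl⟩)]
      exact (Bridge_z2 (x v')).resolve_right hxa
  · rintro h ⟨⟨v, a⟩, hl, hx⟩
    have hv : v ∈ cS C := Finset.mem_image.mpr ⟨(v, a), hl, rfl⟩
    have h1 := h v hv
    have hx' : x v = a := hx
    unfold cσ at h1
    rcases Bridge_z2 a with ha | ha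
    · subst ha
      rw [if_pos hl, hx'] at h1
      exact absurd h1 (by decide)
    · subst ha
      rw [if_neg (fun h0 => hC ⟨v, h0, hl⟩), hx'] at h1
      exact absurd h1 (by decide)

theorem taut_holds {n : ℕ} {C : MajorityLifting.Clause (Fin n)} (hC : Taut C) (x : Fin n → ZMod 2) :
    MajorityLifting.Clause.Holds C x := by
  obtain ⟨v, h0, h1⟩ := hC
  rcases Bridge_z2 (x v) with h | h
  · exact ⟨_, h0, h⟩
  · exact ⟨_, h1, h⟩

theorem PC_bridge {n t : ℕ} (𝒞 : Set (MajorityLifting.Clause (Fin n))) (ht : ∀ C ∈ 𝒞, C.card ≤ t)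
    (h : ¬ MajorityLifting.PC 𝒞 t (fun _ => 1)) :
    (fun _ => (1 : ZMod 2)) ∉ PC (fun C : {C : MajorityLifting.Clause (Fin n) // C ∈ 𝒞 ∧ ¬ Taut C} => cS C.1)
      (fun C : {C : MajorityLifting.Clause (Fin n) // C ∈ 𝒞 ∧ ¬ Taut C} => cσ C.1) t := by
  intro h1
  let K : Submodule (ZMod 2) ((Fin n → ZMod 2) → ZMod 2) :=
    { carrier := {p | MajorityLifting.PC 𝒞 t p}
      add_mem' := fun {p q} hp hq => MajorityLifting.PC.add p q hp hq
      zero_mem' := MajorityLifting.PC.zero
      smul_mem' := by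
        intro a p hp
        rcases Bridge_z2 a with ha | ha
        · subst ha
          have : (0 : ZMod 2) • p = fun _ => 0 := zero_smul _ p
          rw [this]
          exact MajorityLifting.PC.zero
        · subst ha
          rw [one_smul]
          exact hp }
  have hK : (fun _ => (1 : ZMod 2)) ∈ K := by
    refine Submodule.mem_sInf.mp h1 K ⟨?_, ?_⟩
    · rintro ⟨C, hC, hT⟩
      have h2 : indic (falseSet (cS C) (cσ C)) = fun x => if MajorityLifting.Clause.Holds C x then 0 else 1 := by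
        funext x
        unfold indic falseSet
        by_cases hx : MajorityLifting.Clause.Holds C x
        · rw [if_pos hx, if_neg]
          intro hm
          exact (holds_iff hT x).mpr hm hx
        · rw [if_neg hx, if_pos]
          exact (holds_iff hT x).mp hx
      show MajorityLifting.PC 𝒞 t (indic (falseSet (cS C) (cσ C)))
      rw [h2]
      exact MajorityLifting.PC.ax C hC (ht C hC)
    · intro g hg e he hge i
      exact MajorityLifting.PC.mul g e i hg (DegLE_iff.mpr hge) he
  exact h hK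

theorem line_bridge {n b e s' : ℕ} (L : MajorityLifting.Line (Fin n × Fin b) e s') :
    ∃ (P : Set ((Fin (n * b) → ZMod 2) → ZMod 2)) (h : (Fin (n * b) → ZMod 2) → ZMod 2),
      (∀ p ∈ P, p ∈ Pol (n * b) e) ∧ h ∈ Pol (n * b) s' ∧
        {z | ¬ L.Holds (unfl z)} = {z | (∀ p ∈ P, p z = 0) ∧ h z = 0} := by
  have key : ∀ (d : ℕ) (g : MajorityLifting.Pt (Fin n × Fin b) → ZMod 2), MajorityLifting.DegLE d g →
      (fun z : Fin (n * b) → ZMod 2 => 1 + g (unfl z)) ∈ Pol (n * b) d := by
    intro d g hg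
    exact Submodule.add_mem _ (const_mem 1) (DegLE_flat hg)
  have e1 : ∀ a : ZMod 2, 1 + a = 0 ↔ a ≠ 0 := by decide
  refine ⟨{p | ∃ g ∈ L.E, p = fun z => 1 + g (unfl z)}, fun z => 1 + L.p (unfl z), ?_, key _ _ L.hp, ?_⟩
  · rintro p ⟨g, hg, rfl⟩
    exact key _ _ (L.hE g hg)
  · ext z
    show (¬ L.Holds (unfl z)) ↔ _
    constructor
    · intro h
      refine ⟨?_, (e1 _).mpr fun h0 => h (Or.inr h0)⟩
      rintro p ⟨g, hg, rfl⟩
      exact (e1 _).mpr fun h0 => h (Or.inl ⟨g, hg, h0⟩)
    · rintro ⟨h2, h3⟩ (⟨g, hg, h0⟩ | h0)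
      · exact (e1 _).mp (h2 _ ⟨g, hg, rfl⟩) h0
      · exact (e1 _).mp h3 h0

end H49LF
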