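import Pool.Agent.H49.LF.Op
import Pool.Agent.H96.RE.PCmul

/-!
ROW Fam (closure properties of the spaces `FF s W`; about 130 lines).  `b = 2 s + 1`.  PROOF (uses only the statements of Op.lean, PolRM.lean, PCmul.lean).
`FF_mulX`: let `k : Fin (n * b)`, `(i, j) = finProdFinEquiv.symm k`, so `k = finProdFinEquiv (i, j)`.  Fix `x`.  By `Rop_mulX`,
`c ↦ Rop s c (mulX k φ) x` is `∑ v, (c ↦ kk s (c i) (x i) v * v j * ρ_v c)` with `ρ_v = (c ↦ Rop s c φ (Function.update x i v)) ∈ W`.  For `t : ZMod 2`: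
`kk s t u v = (1 + t) * kk s 0 u v + t * kk s 1 u v` (`t = 0, 1`), so the term is `(α + β * c i) * ρ_v c` with constants `α = kk s 0 (x i) v * v j`,
`β = (kk s 0 (x i) v + kk s 1 (x i) v) * v j`, i.e. `α • ρ_v + β • mulX i ρ_v ∈ W'`.  (`Submodule.sum_mem`.)
`FF_mul_mono`: by induction on `T` (`Finset.induction_on`; `φ * mono (insert k T) = mulX k (φ * mono T)`, `FF_mulX`); the step from `Wd a` to `Wd (a + 1)`.
`FF_mul_Pol`, `FF_mul_PC`: `Submodule.span_induction` on `h ∈ Pol (n * b) d` (as in `mul_mem_PC` of PCmul.lean), `FF_mono`, `FF_mul_mono` with `Wd m = Pol n m`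
(`mulX_mem`, `Pol_mono`) resp. `Wd m = PC S σ E ⊓ Pol n m` (also `mulX_mem_PC`).
`FF_axiom`: by `Rop_comp` (`h = indic (falseSet (S j) (σ j))`) the function `c ↦ Rop …` is `indic (falseSet ..) * ρ`, `ρ ∈ Pol n a`; `ind_mem_PC`, `ind_mem_Pol`
(`Pol_mono` to `k`), `mul_mem_PC`, `Pol_mul`.
`span_le_FF`: `Submodule.span_le`; for `T ∈ TT n b s` the function `c ↦ Rop s c (mono T) x` is constant (`Rop_mono`), `const_mem`.
`Rop_span`: `Submodule.span_induction` (`Rop` is additive and homogeneous in `φ`), `Rop_mono`.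
`FF_zero`: if `g ≠ 0` then `g z ≠ 0` for some `z = flat x` (`x i j = z (finProdFinEquiv (i, j))`), so `g z = 1` and `c ↦ Rop s c g x` is the constant `1`: contradiction.
-/

set_option autoImplicit false
open scoped Classical

namespace H49LF

open H96RE

private theorem Fam_cases (t : ZMod 2) : t = 0 ∨ t = 1 := by
  revert t
  decide

private theorem Fam_kk {b : ℕ} (s : ℕ) (t : ZMod 2) (u v : Fin b → ZMod 2) :
    kk s t u v = (1 + t) * kk s 0 u v + t * kk s 1 u v := by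
  have h2 : (1 : ZMod 2) + 1 = 0 := by decide
  rcases Fam_cases t with rfl | rfl
  · ring
  · rw [h2]
    ring

private theorem Fam_add {n b s : ℕ} (c : Fin n → ZMod 2) (φ ψ : (Fin (n * b) → ZMod 2) → ZMod 2)
    (x : Fin n → Fin b → ZMod 2) : Rop s c (φ + ψ) x = Rop s c φ x + Rop s c ψ x := by
  unfold Rop
  rw [← Finset.sum_add_distrib]
  exact Finset.sum_congr rfl fun x' _ => by rw [Pi.add_apply, mul_add]

private theorem Fam_zero {n b s : ℕ} (c : Fin n → ZMod 2) (x : Fin n → Fin b → ZMod 2) :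
    Rop s c (0 : (Fin (n * b) → ZMod 2) → ZMod 2) x = 0 := by
  unfold Rop
  exact Finset.sum_eq_zero fun x' _ => by rw [Pi.zero_apply, mul_zero]

private theorem Fam_smul {n b s : ℕ} (a : ZMod 2) (c : Fin n → ZMod 2)
    (φ : (Fin (n * b) → ZMod 2) → ZMod 2)
    (x : Fin n → Fin b → ZMod 2) : Rop s c (a • φ) x = a * Rop s c φ x := by
  unfold Rop
  rw [Finset.mul_sum]
  refine Finset.sum_congr rfl fun x' _ => ?_
  rw [Pi.smul_apply, smul_eq_mul]
  ring

private theorem Fam_insert {N : ℕ} {i : Fin N} {T : Finset (Fin N)} (hi : i ∉ T)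
    (g : (Fin N → ZMod 2) → ZMod 2) : g * mono (insert i T) = mulX i (g * mono T) := by
  funext x
  simp only [Pi.mul_apply, mono, mulX, Finset.prod_insert hi]
  ring

private theorem Fam_empty {N : ℕ} (g : (Fin N → ZMod 2) → ZMod 2) :
    g * mono (∅ : Finset (Fin N)) = g := by
  funext x
  simp [mono]

theorem FF_mulX {n b s : ℕ} (hb : b = 2 * s + 1) {W W' : Submodule (ZMod 2) ((Fin n → ZMod 2) → ZMod 2)} (hW : W ≤ W')
    (hX : ∀ g ∈ W, ∀ i, mulX i g ∈ W') {φ : (Fin (n * b) → ZMod 2) → ZMod 2} (hφ : φ ∈ FF s W) (k : Fin (n * b)) :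
    mulX k φ ∈ FF s W' := by
  obtain ⟨⟨i, j⟩, rfl⟩ := finProdFinEquiv.surjective k
  rw [mem_FF] at hφ ⊢
  intro x
  have h1 : (fun c => Rop s c (mulX (finProdFinEquiv (i, j)) φ) x) =
      ∑ v : Fin b → ZMod 2, (fun c : Fin n → ZMod 2 =>
        kk s (c i) (x i) v * v j * Rop s c φ (Function.update x i v)) := by
    funext c
    rw [Finset.sum_apply]
    exact Rop_mulX hb i j φ c x
  rw [h1]
  refine Submodule.sum_mem _ fun v _ => ?_
  have h2 : (fun c : Fin n → ZMod 2 =>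
      kk s (c i) (x i) v * v j * Rop s c φ (Function.update x i v)) =
      (kk s 0 (x i) v * v j) • (fun c => Rop s c φ (Function.update x i v)) +
      ((kk s 0 (x i) v + kk s 1 (x i) v) * v j) •
        mulX i (fun c => Rop s c φ (Function.update x i v)) := by
    funext c
    rw [Pi.add_apply, Pi.smul_apply, Pi.smul_apply, smul_eq_mul, smul_eq_mul,
      Fam_kk s (c i) (x i) v]
    unfold mulX
    ring
  rw [h2]
  exact W'.add_mem (W'.smul_mem _ (hW (hφ _))) (W'.smul_mem _ (hX _ (hφ _) i))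

theorem FF_mul_mono {n b s M : ℕ} (hb : b = 2 * s + 1) (Wd : ℕ → Submodule (ZMod 2) ((Fin n → ZMod 2) → ZMod 2))
    (hW : ∀ m, Wd m ≤ Wd (m + 1)) (hX : ∀ m, m + 1 ≤ M → ∀ g ∈ Wd m, ∀ i, mulX i g ∈ Wd (m + 1)) {a : ℕ}
    {φ : (Fin (n * b) → ZMod 2) → ZMod 2} (hφ : φ ∈ FF s (Wd a)) (T : Finset (Fin (n * b))) (hT : a + T.card ≤ M) :
    φ * mono T ∈ FF s (Wd (a + T.card)) := by
  induction T using Finset.induction_on with
  | empty =>
    rw [Fam_empty, Finset.card_empty, add_zero]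
    exact hφ
  | insert k T hk ih =>
    rw [Finset.card_insert_of_notMem hk] at hT ⊢
    rw [Fam_insert hk, ← add_assoc]
    exact FF_mulX hb (hW _) (hX _ (by omega)) (ih (by omega)) k

theorem FF_mul_Pol {n b s a d : ℕ} (hb : b = 2 * s + 1) {φ h : (Fin (n * b) → ZMod 2) → ZMod 2} (hφ : φ ∈ FF s (Pol n a))
    (hh : h ∈ Pol (n * b) d) : φ * h ∈ FF s (Pol n (a + d)) := by
  unfold Pol at hh
  induction hh using Submodule.span_induction with
  | mem h hh =>
    obtain ⟨T, hT, rfl⟩ := hh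
    have hT' : T.card ≤ d := hT
    exact FF_mono (Pol_mono (by omega)) (FF_mul_mono (M := a + T.card) hb (fun m => Pol n m)
      (fun m => Pol_mono (by omega)) (fun m _ g hg i => mulX_mem i hg) hφ T le_rfl)
  | zero => rw [mul_zero]; exact Submodule.zero_mem _
  | add u v _ _ hu hv => rw [mul_add]; exact Submodule.add_mem _ hu hv
  | smul c u _ hu => rw [mul_smul_comm]; exact Submodule.smul_mem _ c hu

theorem FF_mul_PC {n b s a d E : ℕ} {ι : Type} {S : ι → Finset (Fin n)} {σ : ι → Fin n → ZMod 2} (hb : b = 2 * s + 1)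
    {φ h : (Fin (n * b) → ZMod 2) → ZMod 2} (hφ : φ ∈ FF s (PC S σ E ⊓ Pol n a)) (hh : h ∈ Pol (n * b) d) (hE : a + d ≤ E) :
    φ * h ∈ FF s (PC S σ E ⊓ Pol n (a + d)) := by
  unfold Pol at hh
  induction hh using Submodule.span_induction with
  | mem h hh =>
    obtain ⟨T, hT, rfl⟩ := hh
    have hT' : T.card ≤ d := hT
    exact FF_mono (inf_le_inf le_rfl (Pol_mono (by omega)))
      (FF_mul_mono (M := E) hb (fun m => PC S σ E ⊓ Pol n m)
        (fun m => inf_le_inf le_rfl (Pol_mono (by omega)))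
        (fun m hm g hg i => ⟨mulX_mem_PC hg.1 hg.2 hm i, mulX_mem i hg.2⟩) hφ T (by omega))
  | zero => rw [mul_zero]; exact Submodule.zero_mem _
  | add u v _ _ hu hv => rw [mul_add]; exact Submodule.add_mem _ hu hv
  | smul c u _ hu => rw [mul_smul_comm]; exact Submodule.smul_mem _ c hu

theorem FF_axiom {n b s a k E : ℕ} {ι : Type} {S : ι → Finset (Fin n)} {σ : ι → Fin n → ZMod 2} (hb : b = 2 * s + 1)
    {j : ι} (hk : (S j).card ≤ k) {φ : (Fin (n * b) → ZMod 2) → ZMod 2} (hφ : φ ∈ FF s (Pol n a)) (hE : a + k ≤ E) :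
    (fun z => indic (falseSet (S j) (σ j)) (yv s z) * φ z) ∈ FF s (PC S σ E ⊓ Pol n (a + k)) := by
  rw [mem_FF] at hφ ⊢
  intro x
  have h1 : (fun c => Rop s c (fun z => indic (falseSet (S j) (σ j)) (yv s z) * φ z) x) =
      indic (falseSet (S j) (σ j)) * (fun c => Rop s c φ x) := by
    funext c
    rw [Pi.mul_apply]
    exact Rop_comp hb (indic (falseSet (S j) (σ j))) φ c x
  rw [h1]
  have h2 : indic (falseSet (S j) (σ j)) ∈ Pol n k := Pol_mono hk (ind_mem_Pol (S j) (σ j))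
  refine ⟨mul_mem_PC (ind_mem_PC j) h2 (hφ x) (by omega), ?_⟩
  rw [add_comm]
  exact Pol_mul h2 (hφ x)

theorem span_le_FF {n b s : ℕ} (hb : b = 2 * s + 1) :
    Submodule.span (ZMod 2) (mono '' TT n b s) ≤ FF s (Pol n 0) := by
  refine Submodule.span_le.2 ?_
  rintro _ ⟨T, hT, rfl⟩
  show mono T ∈ FF s (Pol n 0)
  rw [mem_FF]
  intro x
  have h1 : (fun c => Rop s c (mono T) x) = fun _ => mono T (flat x) := by
    funext c
    exact Rop_mono hb hT c x
  rw [h1]
  exact const_mem _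

theorem Rop_span {n b s : ℕ} (hb : b = 2 * s + 1) {g : (Fin (n * b) → ZMod 2) → ZMod 2}
    (hg : g ∈ Submodule.span (ZMod 2) (mono '' TT n b s)) (c : Fin n → ZMod 2) (x : Fin n → Fin b → ZMod 2) :
    Rop s c g x = g (flat x) := by
  induction hg using Submodule.span_induction with
  | mem h hh =>
    obtain ⟨T, hT, rfl⟩ := hh
    exact Rop_mono hb hT c x
  | zero => rw [Fam_zero, Pi.zero_apply]
  | add u v _ _ hu hv => rw [Fam_add, hu, hv, Pi.add_apply]
  | smul a u _ hu => rw [Fam_smul, hu, Pi.smul_apply, smul_eq_mul]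

theorem FF_zero {n b s E : ℕ} {ι : Type} {S : ι → Finset (Fin n)} {σ : ι → Fin n → ZMod 2} (hb : b = 2 * s + 1)
    (h1 : (fun _ => (1 : ZMod 2)) ∉ PC S σ E) {g : (Fin (n * b) → ZMod 2) → ZMod 2}
    (hg : g ∈ Submodule.span (ZMod 2) (mono '' TT n b s)) (hg' : g ∈ FF s (PC S σ E)) : g = 0 := by
  by_contra hne
  obtain ⟨z, hz⟩ := Function.ne_iff.1 hne
  have hz1 : g z = 1 := by
    rcases Fam_cases (g z) with h | h
    · exact absurd h hz
    · exact h
  obtain ⟨x, hx⟩ : ∃ x : Fin n → Fin b → ZMod 2, x = fun i j => z (finProdFinEquiv (i, j)) :=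
    ⟨_, rfl⟩
  have hflat : flat x = z := by
    funext k
    unfold flat
    rw [hx]
    show z (finProdFinEquiv ((finProdFinEquiv.symm k).1, (finProdFinEquiv.symm k).2)) = z k
    rw [Prod.mk.eta, Equiv.apply_symm_apply]
  have h2 : (fun c => Rop s c g x) = fun _ => (1 : ZMod 2) := by
    funext c
    rw [Rop_span hb hg c x, hflat, hz1]
  apply h1
  rw [← h2]
  exact (mem_FF.1 hg') x

end H49LF
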