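import Pool.Agent.H49.LF.Defs

/-!
ROW Ker (the interpolation kernel of one block; about 120 lines).  `b = 2 s + 1`.  PROOF.
`supp (sh 0 u) = supp u`, `supp (sh 1 u) = (supp u)ᶜ` (in `ZMod 2`, `a + 1 = 1 ↔ a ≠ 1`).
`mj_iff`: `c = 0`: `mj s u = 0 ↔ ¬ s < (supp u).card`; `c = 1`: `mj s u = 1 ↔ s < (supp u).card ↔ ((supp u)ᶜ).card = 2 s + 1 - (supp u).card ≤ s`.
`kk_off`: the filter is empty: `supp (sh c u') ⊆ T`, `T.card ≤ s` would give `(supp (sh c u')).card ≤ s`.
`kk_diag`: `(supp (sh c u)).card ≤ s`, so the last condition is automatic; the number of `T` with `A ⊆ T ⊆ B` (`Finset.Icc A B`) is `0` if `¬ A ⊆ B` and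
`2 ^ (B.card - A.card)` otherwise (`Finset.card_Icc_finset`); in `ZMod 2` this is `1` iff `A = B` and `0` otherwise; `supp (sh c u') = supp (sh c u) ↔ u = u'`.
`kk_comp`: the term of `v` is `0` unless `mj s v = c` (`kk_off` for `kk s c u v`); if `mj s v = c` then `kk s c v u' = if v = u' then 1 else 0` (`kk_diag`).  So the
sum is `kk s c u u' * u' j` (if `mj s u' ≠ c` both sides are `0`).
`kk_mono`: first for `c = 0`: `∑ u', kk s 0 u u' * ∏_(j ∈ S) u' j = ∑_(u') ∑_(T ⊆ supp u, |T| ≤ s) [supp u' ⊆ T] [S ⊆ supp u']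
= ∑_(T ⊆ supp u, |T| ≤ s) #{U' | S ⊆ U' ⊆ T} = ∑_(T ⊆ supp u, |T| ≤ s) [S = T] = [S ⊆ supp u]` (the vectors `u'` correspond to their supports; the number of
`U'` is `2 ^ (T.card - S.card)` or `0`).  `c = 1`: substitute `u' = sh 1 u''` (`Equiv` `sh 1`, an involution): the sum is
`∑ u'', kk s 0 (sh 1 u) u'' * ∏_(j ∈ S) (u'' j + 1)`, expand `∏_(j ∈ S) (u'' j + 1) = ∑_(R ⊆ S) ∏_(j ∈ R) u'' j` (`Finset.prod_add_one`), use the case `c = 0` for every
`R` (`R.card ≤ S.card ≤ s`) and fold back: `∏_(j ∈ S) (sh 1 u j + 1) = ∏_(j ∈ S) u j`.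
-/

set_option autoImplicit false
open scoped Classical

namespace H49LF

private theorem Ker_z2 : ∀ c : ZMod 2, c = 0 ∨ c = 1 := by decide

private theorem Ker_a1 : ∀ a : ZMod 2, a + 1 = 1 ↔ ¬ a = 1 := by decide

private theorem Ker_inj2 : ∀ a b : ZMod 2, (a = 1 ↔ b = 1) → a = b := by decide

private theorem Ker_11 : ∀ a : ZMod 2, a + 1 + 1 = a := by decide

private theorem Ker_01 : (0 : ZMod 2) ≠ 1 := by decide

private theorem Ker_mem {b : ℕ} (u : Fin b → ZMod 2) (j : Fin b) : j ∈ supp u ↔ u j = 1 := by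
  unfold supp
  rw [Finset.mem_filter]
  exact ⟨fun h => h.2, fun h => ⟨Finset.mem_univ _, h⟩⟩

private theorem Ker_sh0 {b : ℕ} (u : Fin b → ZMod 2) : sh 0 u = u := by
  funext j
  unfold sh
  rw [add_zero]

private theorem Ker_sh1 {b : ℕ} (u : Fin b → ZMod 2) : supp (sh 1 u) = (supp u)ᶜ := by
  ext j
  rw [Finset.mem_compl, Ker_mem, Ker_mem]
  exact Ker_a1 (u j)

private theorem Ker_shsh {b : ℕ} (u : Fin b → ZMod 2) : sh 1 (sh 1 u) = u := by
  funext j
  unfold sh
  exact Ker_11 (u j)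

private theorem Ker_supp_inj {b : ℕ} {u v : Fin b → ZMod 2} (h : supp u = supp v) : u = v := by
  funext j
  apply Ker_inj2
  rw [← Ker_mem u j, ← Ker_mem v j, h]

private theorem Ker_sh_inj {b : ℕ} {c : ZMod 2} {u v : Fin b → ZMod 2} (h : sh c u = sh c v) :
    u = v := by
  funext j
  have := congrFun h j
  unfold sh at this
  exact add_right_cancel this

theorem mj_iff {b s : ℕ} (hb : b = 2 * s + 1) (u : Fin b → ZMod 2) (c : ZMod 2) :
    mj s u = c ↔ (supp (sh c u)).card ≤ s := by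
  rcases Ker_z2 c with hc | hc
  · rw [hc, Ker_sh0]
    unfold mj
    split_ifs with h
    · constructor
      · intro h1
        exact absurd h1.symm Ker_01
      · intro h1
        omega
    · exact ⟨fun _ => by omega, fun _ => rfl⟩
  · rw [hc, Ker_sh1, Finset.card_compl, Fintype.card_fin]
    have hle : (supp u).card ≤ b := by
      have := Finset.card_le_univ (supp u)
      rwa [Fintype.card_fin] at this
    unfold mj
    split_ifs with h
    · exact ⟨fun _ => by omega, fun _ => rfl⟩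
    · constructor
      · intro h1
        exact absurd h1 Ker_01
      · intro h1
        omega

theorem kk_off {b s : ℕ} (hb : b = 2 * s + 1) {c : ZMod 2} {u' : Fin b → ZMod 2} (h : mj s u' ≠ c) (u : Fin b → ZMod 2) :
    kk s c u u' = 0 := by
  have h1 : ¬ (supp (sh c u')).card ≤ s := fun h2 => h ((mj_iff hb u' c).2 h2)
  unfold kk
  rw [Finset.filter_eq_empty_iff.2, Finset.card_empty, Nat.cast_zero]
  intro T _ hT
  exact h1 ((Finset.card_le_card hT.1).trans hT.2.2)

private theorem Ker_Icc {b : ℕ} (A B : Finset (Fin b)) :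
    (((Finset.Icc A B).card : ℕ) : ZMod 2) = if A = B then 1 else 0 := by
  by_cases hAB : A ⊆ B
  · rw [Finset.card_Icc_finset hAB]
    by_cases he : A = B
    · rw [if_pos he, he, Nat.sub_self, pow_zero, Nat.cast_one]
    · rw [if_neg he]
      have hlt : A.card < B.card := Finset.card_lt_card (hAB.ssubset_of_ne he)
      obtain ⟨k, hk⟩ : ∃ k, B.card - A.card = k + 1 := ⟨B.card - A.card - 1, by omega⟩
      rw [hk, Nat.cast_pow, pow_succ]
      have h2 : ((2 : ℕ) : ZMod 2) = 0 := by decide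
      rw [h2, mul_zero]
  · have he : A ≠ B := fun h => hAB h.subset
    rw [if_neg he, Finset.Icc_eq_empty (fun h => hAB h), Finset.card_empty, Nat.cast_zero]

theorem kk_diag {b s : ℕ} (hb : b = 2 * s + 1) {c : ZMod 2} {u : Fin b → ZMod 2} (h : mj s u = c) (u' : Fin b → ZMod 2) :
    kk s c u u' = if u = u' then 1 else 0 := by
  have h1 : (supp (sh c u)).card ≤ s := (mj_iff hb u c).1 h
  have h2 : Finset.univ.filter (fun T : Finset (Fin b) =>
      supp (sh c u') ⊆ T ∧ T ⊆ supp (sh c u) ∧ T.card ≤ s) =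
      Finset.Icc (supp (sh c u')) (supp (sh c u)) := by
    ext T
    rw [Finset.mem_filter, Finset.mem_Icc]
    constructor
    · intro hT
      exact ⟨hT.2.1, hT.2.2.1⟩
    · intro hT
      exact ⟨Finset.mem_univ _, hT.1, hT.2, (Finset.card_le_card hT.2).trans h1⟩
  unfold kk
  rw [h2, Ker_Icc]
  by_cases he : u = u'
  · rw [if_pos he, he, if_pos rfl]
  · rw [if_neg he, if_neg]
    intro h3
    exact he (Ker_sh_inj (Ker_supp_inj h3)).symm

theorem kk_comp {b s : ℕ} (hb : b = 2 * s + 1) (c : ZMod 2) (u u' : Fin b → ZMod 2) (j : Fin b) :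
    ∑ v : Fin b → ZMod 2, kk s c u v * v j * kk s c v u' = kk s c u u' * u' j := by
  have h1 : ∀ v : Fin b → ZMod 2, kk s c u v * v j * kk s c v u' =
      if v = u' then kk s c u u' * u' j else 0 := by
    intro v
    by_cases hv : mj s v = c
    · rw [kk_diag hb hv]
      by_cases he : v = u'
      · rw [if_pos he, if_pos he, he, mul_one]
      · rw [if_neg he, if_neg he, mul_zero]
    · rw [kk_off hb hv, zero_mul, zero_mul]
      by_cases he : v = u'
      · rw [if_pos he, ← he, kk_off hb hv, zero_mul]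
      · rw [if_neg he]
  rw [Finset.sum_congr rfl fun v _ => h1 v, Finset.sum_ite_eq' Finset.univ u', if_pos (Finset.mem_univ _)]

private theorem Ker_prod {b : ℕ} (S : Finset (Fin b)) (u : Fin b → ZMod 2) :
    ∏ j ∈ S, u j = if S ⊆ supp u then 1 else 0 := by
  by_cases h : S ⊆ supp u
  · rw [if_pos h]
    exact Finset.prod_eq_one fun j hj => (Ker_mem u j).1 (h hj)
  · rw [if_neg h]
    obtain ⟨j, hj, hju⟩ := Finset.not_subset.1 h
    refine Finset.prod_eq_zero hj ?_
    rcases Ker_z2 (u j) with h1 | h1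
    · exact h1
    · exact absurd ((Ker_mem u j).2 h1) hju

private theorem Ker_cnt {b : ℕ} (S T : Finset (Fin b)) :
    (((Finset.univ.filter (fun u' : Fin b → ZMod 2 => supp u' ⊆ T ∧ S ⊆ supp u')).card : ℕ) :
      ZMod 2) = if S = T then 1 else 0 := by
  rw [← Ker_Icc S T]
  congr 1
  refine Finset.card_bij (fun u' _ => supp u') ?_ ?_ ?_
  · intro u' hu'
    rw [Finset.mem_filter] at hu'
    rw [Finset.mem_Icc]
    exact ⟨hu'.2.2, hu'.2.1⟩
  · intro u _ v _ h
    exact Ker_supp_inj h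
  · intro U hU
    rw [Finset.mem_Icc] at hU
    have e : supp (fun j => if j ∈ U then (1 : ZMod 2) else 0) = U := by
      ext j
      rw [Ker_mem]
      by_cases hj : j ∈ U
      · simp [hj]
      · simp [hj]
    refine ⟨fun j => if j ∈ U then (1 : ZMod 2) else 0, ?_, e⟩
    rw [Finset.mem_filter, e]
    exact ⟨Finset.mem_univ _, hU.2, hU.1⟩

private theorem Ker_mono0 {b s : ℕ} {S : Finset (Fin b)} (hS : S.card ≤ s) (u : Fin b → ZMod 2) :
    ∑ u' : Fin b → ZMod 2, kk s 0 u u' * ∏ j ∈ S, u' j = ∏ j ∈ S, u j := by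
  have h1 : ∀ u' : Fin b → ZMod 2, kk s 0 u u' * ∏ j ∈ S, u' j =
      ∑ T : Finset (Fin b), if T ⊆ supp u ∧ T.card ≤ s then
        (if supp u' ⊆ T ∧ S ⊆ supp u' then (1 : ZMod 2) else 0) else 0 := by
    intro u'
    unfold kk
    rw [Ker_sh0, Ker_sh0, Ker_prod, Finset.card_filter, Nat.cast_sum, Finset.sum_mul]
    refine Finset.sum_congr rfl fun T _ => ?_
    by_cases a1 : supp u' ⊆ T <;> by_cases a2 : T ⊆ supp u <;> by_cases a3 : T.card ≤ s <;>
      by_cases a4 : S ⊆ supp u' <;> simp [a1, a2, a3, a4]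
  rw [Finset.sum_congr rfl fun u' _ => h1 u', Finset.sum_comm]
  have h2 : ∀ T : Finset (Fin b), ∑ u' : Fin b → ZMod 2, (if T ⊆ supp u ∧ T.card ≤ s then
        (if supp u' ⊆ T ∧ S ⊆ supp u' then (1 : ZMod 2) else 0) else 0) =
      if S = T then (if S ⊆ supp u then 1 else 0) else 0 := by
    intro T
    by_cases hT : T ⊆ supp u ∧ T.card ≤ s
    · rw [Finset.sum_congr rfl fun u' _ => if_pos hT]
      have h3 : ∑ u' : Fin b → ZMod 2, (if supp u' ⊆ T ∧ S ⊆ supp u' then (1 : ZMod 2) else 0) =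
          (((Finset.univ.filter (fun u' : Fin b → ZMod 2 => supp u' ⊆ T ∧ S ⊆ supp u')).card : ℕ) :
            ZMod 2) := by
        rw [Finset.card_filter, Nat.cast_sum]
        refine Finset.sum_congr rfl fun u' _ => ?_
        split_ifs <;> simp
      rw [h3, Ker_cnt]
      by_cases he : S = T
      · rw [if_pos he, if_pos he, if_pos (by rw [he]; exact hT.1)]
      · rw [if_neg he, if_neg he]
    · rw [Finset.sum_congr rfl fun u' _ => if_neg hT, Finset.sum_const_zero]
      by_cases he : S = T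
      · rw [if_pos he, if_neg]
        intro h4
        exact hT ⟨by rw [← he]; exact h4, by rw [← he]; exact hS⟩
      · rw [if_neg he]
  rw [Finset.sum_congr rfl fun T _ => h2 T, Finset.sum_ite_eq Finset.univ S,
    if_pos (Finset.mem_univ _), Ker_prod]

theorem kk_mono {b s : ℕ} (hb : b = 2 * s + 1) {S : Finset (Fin b)} (hS : S.card ≤ s) (c : ZMod 2) (u : Fin b → ZMod 2) :
    ∑ u' : Fin b → ZMod 2, kk s c u u' * ∏ j ∈ S, u' j = ∏ j ∈ S, u j := by
  rcases Ker_z2 c with hc | hc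
  · rw [hc]
    exact Ker_mono0 hS u
  · rw [hc]
    have hinv : Function.Involutive (sh (b := b) 1) := fun v => Ker_shsh v
    have e1 : ∑ u' : Fin b → ZMod 2, kk s 1 u u' * ∏ j ∈ S, u' j =
        ∑ v : Fin b → ZMod 2, kk s 0 (sh 1 u) v * ∏ j ∈ S, (v j + 1) := by
      refine Fintype.sum_equiv hinv.toPerm _ _ fun u' => ?_
      have e2 : (hinv.toPerm) u' = sh 1 u' := rfl
      rw [e2]
      have e3 : kk s 1 u u' = kk s 0 (sh 1 u) (sh 1 u') := by
        unfold kk
        rw [Ker_sh0, Ker_sh0]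
      rw [e3]
      congr 1
      refine Finset.prod_congr rfl fun j _ => ?_
      unfold sh
      exact (Ker_11 (u' j)).symm
    rw [e1]
    have e4 : ∀ v : Fin b → ZMod 2, kk s 0 (sh 1 u) v * ∏ j ∈ S, (v j + 1) =
        ∑ R ∈ S.powerset, kk s 0 (sh 1 u) v * ∏ j ∈ R, v j := by
      intro v
      rw [Finset.prod_add_one, Finset.mul_sum]
    rw [Finset.sum_congr rfl fun v _ => e4 v, Finset.sum_comm]
    have e5 : ∀ R ∈ S.powerset, ∑ v : Fin b → ZMod 2, kk s 0 (sh 1 u) v * ∏ j ∈ R, v j =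
        ∏ j ∈ R, sh 1 u j := by
      intro R hR
      rw [Finset.mem_powerset] at hR
      exact Ker_mono0 ((Finset.card_le_card hR).trans hS) (sh 1 u)
    rw [Finset.sum_congr rfl e5, ← Finset.prod_add_one]
    refine Finset.prod_congr rfl fun j _ => ?_
    unfold sh
    exact Ker_11 (u j)

end H49LF
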