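import Mathlib

/-!
ROW Num (numbers; about 70 lines).  PROOF.  `a = (f + 1) * (e + 1)`, `x = (1/8) ^ e / 2`, `K = 64 * 8 ^ e * a`, `w = t / (4 * a)` (floor).
`(1 - x) ^ w ≤ exp (- x * w)` (`Real.one_sub_le_exp_neg`), so `exp (x * w - n * ((1/2) * (1/2) ^ s)) ≤ N`.
`w ≥ t / (4 a) - 1 ≥ t / (8 a)` (reals; `K ≤ t`, so `8 a ≤ t`), `x * w ≥ t / (16 * a * 8 ^ e)`.  `b / K ≤ b / 2 = s`, so `K * n ≤ t * 2 ^ s` and
`n * ((1/2) * (1/2) ^ s) ≤ t / (2 K) = t / (128 * a * 8 ^ e)`.  The difference is at least `t / (64 * a * 8 ^ e) = t / K` (real division), and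
`exp (t / K) ≥ 2 ^ (t / K)` (`Real.exp_one_gt_d9`: `2 ≤ exp 1`; the floor is at most the real quotient).
-/

set_option autoImplicit false

namespace H49LF

theorem num_le {e f n t b s N K : ℕ} (hb : b = 2 * s + 1) (hK : K = 64 * 8 ^ e * ((f + 1) * (e + 1))) (ht : K ≤ t)
    (hn : K * n ≤ t * 2 ^ (b / K))
    (h : Real.exp (-(n * ((1 / 2) * (1 / 2) ^ s))) ≤ N * (1 - (1 / 8 : ℝ) ^ e / 2) ^ (t / (4 * ((f + 1) * (e + 1))))) :
    2 ^ (t / K) ≤ N := by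
  obtain ⟨a, ha⟩ : ∃ a : ℕ, a = (f + 1) * (e + 1) := ⟨_, rfl⟩
  rw [← ha] at hK h
  have ha1 : 1 ≤ a := by rw [ha]; exact Nat.mul_pos (Nat.succ_pos _) (Nat.succ_pos _)
  have hA1 : 1 ≤ 8 ^ e := Nat.one_le_pow _ _ (by norm_num)
  have hAa : a ≤ 8 ^ e * a := Nat.le_mul_of_pos_left _ hA1
  have hKe : K = 64 * (8 ^ e * a) := by rw [hK]; ring
  have hbs : b / K ≤ s := by
    have h1 : b / K ≤ b / 2 := Nat.div_le_div_left (by omega) (by norm_num)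
    omega
  have hn2 : K * n ≤ t * 2 ^ s :=
    hn.trans (Nat.mul_le_mul_left _ (Nat.pow_le_pow_right (by norm_num) hbs))
  have haR : (1 : ℝ) ≤ a := by exact_mod_cast ha1
  have hAR : (1 : ℝ) ≤ (8 : ℝ) ^ e := by exact_mod_cast hA1
  have hKR : (K : ℝ) = 64 * ((8 : ℝ) ^ e * a) := by rw [hKe]; push_cast; ring
  have hK0 : (0 : ℝ) < K := by rw [hKR]; positivity
  have htR : (K : ℝ) ≤ t := by exact_mod_cast ht
  have ht0 : (0 : ℝ) < t := lt_of_lt_of_le hK0 htR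
  have hx0 : (1 / 8 : ℝ) ^ e / 2 = 1 / (2 * (8 : ℝ) ^ e) := by
    rw [one_div, inv_pow]
    field_simp
  have hx1 : (1 / 8 : ℝ) ^ e ≤ 1 := pow_le_one₀ (by norm_num) (by norm_num)
  obtain ⟨W, hW⟩ : ∃ W : ℕ, W = t / (4 * a) := ⟨_, rfl⟩
  rw [← hW] at h
  have hW1 : (t : ℝ) / (8 * a) ≤ W := by
    have h1 : t < 4 * a * (W + 1) := by
      rw [hW]
      exact Nat.lt_mul_div_succ t (by omega)
    have h2 : (t : ℝ) < 4 * a * (W + 1) := by exact_mod_cast h1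
    have h3 : 8 * (a : ℝ) ≤ t := by
      have h4 : 8 * a ≤ t := by omega
      exact_mod_cast h4
    rw [div_le_iff₀ (by positivity)]
    nlinarith
  have hp : (1 - (1 / 8 : ℝ) ^ e / 2) ^ W ≤ Real.exp (-((1 / 8 : ℝ) ^ e / 2 * W)) := by
    have h1 := pow_le_pow_left₀ (by linarith : (0 : ℝ) ≤ 1 - (1 / 8 : ℝ) ^ e / 2)
      (Real.one_sub_le_exp_neg ((1 / 8 : ℝ) ^ e / 2)) W
    refine h1.trans (le_of_eq ?_)
    rw [← Real.exp_nat_mul]
    congr 1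
    ring
  have h1 : Real.exp ((1 / 8 : ℝ) ^ e / 2 * W - n * ((1 / 2) * (1 / 2) ^ s)) ≤ N := by
    have h2 := h.trans (mul_le_mul_of_nonneg_left hp (Nat.cast_nonneg N))
    have h3 := mul_le_mul_of_nonneg_left h2 (Real.exp_pos ((1 / 8 : ℝ) ^ e / 2 * W)).le
    have h4 : Real.exp ((1 / 8 : ℝ) ^ e / 2 * W) *
        (N * Real.exp (-((1 / 8 : ℝ) ^ e / 2 * W))) = N := by
      rw [mul_comm (N : ℝ), ← mul_assoc, ← Real.exp_add, add_neg_cancel, Real.exp_zero, one_mul]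
    rw [h4, ← Real.exp_add] at h3
    rw [sub_eq_add_neg]
    exact h3
  have hny : (n : ℝ) * ((1 / 2) * (1 / 2) ^ s) ≤ t / (2 * K) := by
    have h2 : (K : ℝ) * n ≤ t * 2 ^ s := by exact_mod_cast hn2
    rw [le_div_iff₀ (by positivity)]
    have h3 : (0 : ℝ) ≤ (1 / 2) ^ s := by positivity
    have h4 := mul_le_mul_of_nonneg_right h2 h3
    have h5 : (t : ℝ) * 2 ^ s * (1 / 2) ^ s = t := by
      rw [mul_assoc, ← mul_pow]
      norm_num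
    rw [h5] at h4
    calc (n : ℝ) * ((1 / 2) * (1 / 2) ^ s) * (2 * K) = K * n * (1 / 2) ^ s := by ring
      _ ≤ t := h4
  have hdiff : (t : ℝ) / K ≤ (1 / 8 : ℝ) ^ e / 2 * W - n * ((1 / 2) * (1 / 2) ^ s) := by
    have h2 : (t : ℝ) / (8 * a) * (1 / (2 * (8 : ℝ) ^ e)) ≤ (1 / 8 : ℝ) ^ e / 2 * W := by
      rw [hx0, mul_comm (1 / (2 * (8 : ℝ) ^ e))]
      exact mul_le_mul_of_nonneg_right hW1 (by positivity)
    have h3 : (t : ℝ) / (8 * a) * (1 / (2 * (8 : ℝ) ^ e)) = 4 * (t / K) := by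
      rw [hKR]
      field_simp
      norm_num
    have h4 : (t : ℝ) / (2 * K) = (t / K) / 2 := by
      field_simp
    have h5 : 0 < (t : ℝ) / K := by positivity
    rw [h3] at h2
    rw [h4] at hny
    linarith
  have hfl : ((t / K : ℕ) : ℝ) ≤ (t : ℝ) / K := Nat.cast_div_le
  have hfin : (2 : ℝ) ^ (t / K) ≤ N := by
    have h2 : (2 : ℝ) ≤ Real.exp 1 := by
      have := Real.exp_one_gt_d9
      linarith
    calc (2 : ℝ) ^ (t / K) ≤ (Real.exp 1) ^ (t / K) := pow_le_pow_left₀ (by norm_num) h2 _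
      _ = Real.exp ((t / K : ℕ) : ℝ) := by
        rw [← Real.exp_nat_mul, mul_one]
      _ ≤ Real.exp ((1 / 8 : ℝ) ^ e / 2 * W - n * ((1 / 2) * (1 / 2) ^ s)) :=
        Real.exp_le_exp.2 (hfl.trans hdiff)
      _ ≤ N := h1
  exact_mod_cast hfin

end H49LF
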