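import Pool.Agent.H49.LF.Defs

/-!
ROW Wt (the weight of the index set; about 90 lines).  PROOF.
`wt_eq`: the bijection `T ↦ (i ↦ blkT T i)` from `Finset (Fin (n * b))` to `Fin n → Finset (Fin b)` (inverse `U ↦ {k | (finProdFinEquiv.symm k).2 ∈ U (finProdFinEquiv.symm k).1}`)
has `T.card = ∑ i, (blkT T i).card`, so `∑_(T ∈ TT) q ^ T.card = ∑_(U : ∀ i, (U i).card ≤ s) ∏ i, q ^ (U i).card = ∏ i, ∑_(U : U.card ≤ s) q ^ U.card`
(`Finset.prod_univ_sum`, `Fintype.mem_piFinset`).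
`wt_low`: `∑_(all U : Finset (Fin b)) q ^ U.card = (1 + q) ^ b` (`Fintype.sum_pow_mul_eq_add_pow` or `Finset.prod_add_one`/`Finset.sum_pow_mul_eq_add_pow`); the `U` with
`U.card ≥ s + 1` contribute at most `2 ^ b * q ^ (s + 1) = 2 * q * (4 * q) ^ s` (`q ≤ 1`), which for `q = 1/8` is `(1/4) * (1/2) ^ s ≤ (1/4) * (1/2)^s * (9/8) ^ b`.
`wt_main`: combine: `(1 - η) ^ n ≥ exp (- 2 * η) ^ n`, because `1 - η ≥ exp (-2 η)` for `0 ≤ η ≤ 1/2`
(e.g. `exp (-2η) = 1 / exp (2 η) ≤ 1 / (1 + 2 η) ≤ 1 - η`, as `(1 - η) (1 + 2η) = 1 + η (1 - 2 η) ≥ 1`; `Real.add_one_le_exp`).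
-/

set_option autoImplicit false
open scoped Classical

namespace H49LF

private theorem LFWt_card {n b : ℕ} (T : Finset (Fin (n * b))) :
    T.card = ∑ i : Fin n, (blkT T i).card := by
  have h1 : T.card = ∑ k : Fin (n * b), if k ∈ T then 1 else 0 := by
    rw [Finset.sum_ite_mem, Finset.univ_inter, Finset.sum_const, smul_eq_mul, mul_one]
  have h2 : ∀ i : Fin n, (blkT T i).card =
      ∑ j : Fin b, if finProdFinEquiv (i, j) ∈ T then 1 else 0 := by
    intro i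
    unfold blkT
    rw [Finset.card_filter]
  rw [h1, Finset.sum_congr rfl fun i _ => h2 i,
    ← Fintype.sum_prod_type' (fun (i : Fin n) (j : Fin b) =>
      if finProdFinEquiv (i, j) ∈ T then 1 else 0)]
  exact (Equiv.sum_comp finProdFinEquiv (fun k : Fin (n * b) => if k ∈ T then 1 else 0)).symm

theorem wt_eq (n b s : ℕ) (q : ℝ) :
    ∑ T ∈ Finset.univ.filter (fun T : Finset (Fin (n * b)) => T ∈ TT n b s), q ^ T.card =
      (∑ U ∈ Finset.univ.filter (fun U : Finset (Fin b) => U.card ≤ s), q ^ U.card) ^ n := by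
  obtain ⟨F, hF⟩ : ∃ F : Finset (Finset (Fin b)),
      F = Finset.univ.filter (fun U : Finset (Fin b) => U.card ≤ s) := ⟨_, rfl⟩
  have hF' : ∀ U, U ∈ F ↔ U.card ≤ s := by
    intro U
    rw [hF, Finset.mem_filter]
    exact ⟨fun h => h.2, fun h => ⟨Finset.mem_univ _, h⟩⟩
  rw [← hF]
  have h1 : (∑ U ∈ F, q ^ U.card) ^ n =
      ∑ p ∈ Fintype.piFinset (fun _ : Fin n => F), ∏ i, q ^ (p i).card := by
    rw [← Finset.prod_univ_sum (fun _ : Fin n => F) (fun _ U => q ^ U.card), Finset.prod_const,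
      Finset.card_univ, Fintype.card_fin]
  rw [h1]
  have hblk : ∀ (p : Fin n → Finset (Fin b)) (i : Fin n),
      blkT (Finset.univ.filter (fun k : Fin (n * b) =>
        (finProdFinEquiv.symm k).2 ∈ p (finProdFinEquiv.symm k).1)) i = p i := by
    intro p i
    ext j
    unfold blkT
    simp only [Finset.mem_filter, Finset.mem_univ, true_and, Equiv.symm_apply_apply]
  refine Finset.sum_nbij' (fun T i => blkT T i)
    (fun p => Finset.univ.filter (fun k : Fin (n * b) =>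
      (finProdFinEquiv.symm k).2 ∈ p (finProdFinEquiv.symm k).1)) ?_ ?_ ?_ ?_ ?_
  · intro T hT
    rw [Fintype.mem_piFinset]
    intro i
    rw [hF']
    exact (Finset.mem_filter.1 hT).2 i
  · intro p hp
    rw [Finset.mem_filter]
    refine ⟨Finset.mem_univ _, fun i => ?_⟩
    rw [hblk]
    exact (hF' _).1 (Fintype.mem_piFinset.1 hp i)
  · intro T _
    ext k
    unfold blkT
    simp only [Finset.mem_filter, Finset.mem_univ, true_and, Prod.mk.eta, Equiv.apply_symm_apply]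
  · intro p _
    funext i
    exact hblk p i
  · intro T _
    rw [Finset.prod_pow_eq_pow_sum, ← LFWt_card]

theorem wt_low {b s : ℕ} (hb : b = 2 * s + 1) :
    (1 + (1 / 8 : ℝ)) ^ b * (1 - (1 / 4) * (1 / 2) ^ s) ≤
      ∑ U ∈ Finset.univ.filter (fun U : Finset (Fin b) => U.card ≤ s), (1 / 8 : ℝ) ^ U.card := by
  have h1 : ∑ U : Finset (Fin b), (1 / 8 : ℝ) ^ U.card = (1 + (1 / 8 : ℝ)) ^ b := by
    have h := Fintype.sum_pow_mul_eq_add_pow (Fin b) (1 / 8 : ℝ) 1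
    rw [Fintype.card_fin] at h
    rw [add_comm, ← h]
    refine Finset.sum_congr rfl fun U _ => ?_
    rw [one_pow, mul_one]
  have h2 : ∑ U ∈ Finset.univ.filter (fun U : Finset (Fin b) => ¬ U.card ≤ s),
      (1 / 8 : ℝ) ^ U.card ≤ (1 / 4) * (1 / 2) ^ s := by
    have h3 : ∀ U ∈ Finset.univ.filter (fun U : Finset (Fin b) => ¬ U.card ≤ s),
        (1 / 8 : ℝ) ^ U.card ≤ (1 / 8 : ℝ) ^ (s + 1) := by
      intro U hU
      have h4 := (Finset.mem_filter.1 hU).2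
      exact pow_le_pow_of_le_one (by norm_num) (by norm_num) (by omega)
    refine (Finset.sum_le_sum h3).trans ?_
    rw [Finset.sum_const, nsmul_eq_mul]
    have h5 : ((Finset.univ.filter (fun U : Finset (Fin b) => ¬ U.card ≤ s)).card : ℝ) ≤ 2 ^ b := by
      have h6 : (Finset.univ.filter (fun U : Finset (Fin b) => ¬ U.card ≤ s)).card ≤ 2 ^ b := by
        refine (Finset.card_filter_le _ _).trans ?_
        rw [Finset.card_univ, Fintype.card_finset, Fintype.card_fin]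
      exact_mod_cast h6
    have h7 : (2 : ℝ) ^ b * (1 / 8 : ℝ) ^ (s + 1) = (1 / 4) * (1 / 2) ^ s := by
      have h8 : (2 : ℝ) ^ (2 * s) * (1 / 8 : ℝ) ^ s = (1 / 2) ^ s := by
        rw [pow_mul, ← mul_pow]
        norm_num
      rw [hb, pow_succ, pow_succ, ← h8]
      ring
    calc _ ≤ (2 : ℝ) ^ b * (1 / 8 : ℝ) ^ (s + 1) :=
          mul_le_mul_of_nonneg_right h5 (by positivity)
      _ = _ := h7
  have h9 := Finset.sum_filter_add_sum_filter_not Finset.univ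
    (fun U : Finset (Fin b) => U.card ≤ s) (fun U => (1 / 8 : ℝ) ^ U.card)
  rw [h1] at h9
  have h10 : (1 : ℝ) ≤ (1 + (1 / 8 : ℝ)) ^ b := one_le_pow₀ (by norm_num)
  have h11 : (0 : ℝ) ≤ (1 / 4) * (1 / 2) ^ s := by positivity
  have h12 : (1 / 4 : ℝ) * (1 / 2) ^ s ≤ (1 + (1 / 8 : ℝ)) ^ b * ((1 / 4) * (1 / 2) ^ s) := by
    calc (1 / 4 : ℝ) * (1 / 2) ^ s = 1 * ((1 / 4) * (1 / 2) ^ s) := (one_mul _).symm
      _ ≤ _ := mul_le_mul_of_nonneg_right h10 h11
  rw [mul_sub, mul_one]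
  linarith

theorem wt_main {n b s : ℕ} (hb : b = 2 * s + 1) :
    (1 + (1 / 8 : ℝ)) ^ (n * b) * Real.exp (-(n * ((1 / 2) * (1 / 2) ^ s))) ≤
      ∑ T ∈ Finset.univ.filter (fun T : Finset (Fin (n * b)) => T ∈ TT n b s), (1 / 8 : ℝ) ^ T.card := by
  rw [wt_eq]
  obtain ⟨η, hη⟩ : ∃ η : ℝ, η = (1 / 4) * (1 / 2) ^ s := ⟨_, rfl⟩
  have h0 : 0 ≤ η := by
    rw [hη]
    positivity
  have h1 : η ≤ 1 / 4 := by
    have h2 : (1 / 2 : ℝ) ^ s ≤ 1 := pow_le_one₀ (by norm_num) (by norm_num)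
    rw [hη]
    linarith
  have h3 : Real.exp (-(2 * η)) ≤ 1 - η := by
    rw [Real.exp_neg, inv_le_comm₀ (Real.exp_pos _) (by linarith)]
    have h4 := Real.add_one_le_exp (2 * η)
    refine le_trans ?_ h4
    rw [inv_eq_one_div, div_le_iff₀ (by linarith)]
    nlinarith
  have h5 : Real.exp (-(n * ((1 / 2) * (1 / 2) ^ s))) = Real.exp (-(2 * η)) ^ n := by
    rw [← Real.exp_nat_mul, hη]
    congr 1
    ring
  have h6 : (1 + (1 / 8 : ℝ)) ^ (n * b) = ((1 + (1 / 8 : ℝ)) ^ b) ^ n := by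
    rw [← pow_mul, mul_comm]
  rw [h5, h6, ← mul_pow]
  refine pow_le_pow_left₀ (by positivity) ?_ n
  refine le_trans ?_ (wt_low hb)
  rw [← hη]
  exact mul_le_mul_of_nonneg_left h3 (by positivity)

end H49LF
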