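import Pool.Agent.H49.LF.Bridge
import Pool.Agent.H49.LF.Num
import Pool.Agent.H49.LF.Wt
import Pool.Agent.H49.LF.ThmL

/-!
ROW Main (assembly; about 90 lines).  PROOF.  `a = (f + 1) * (e + 1)`, `K = 64 * 8 ^ e * a`.  Let `b = 2 m + 1`, `w = t / (4 * a)`, `A i = {z | ¬ (l i).Holds (unfl z)}`.  Apply `thmL` with
`ι = {C // C ∈ 𝒞 ∧ ¬ Taut C}`, `S C = cS C`, `σ C = cσ C` (`card_cS`), `q = 1/8`, `E = t`, degree `s`, `PC_bridge` (`C.card ≤ k ≤ t`), `line_bridge`.
`(f + 1) * (e * w + s) ≤ t`: `(f + 1) * e * w ≤ a * w ≤ t / 4` and `(f + 1) * s ≤ K * s / 64 ≤ t / 4`; `e * w + s + k ≤ t`: `e * w ≤ t / 4`, `s ≤ t / 4`, `k ≤ t / 4`.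
`hline`: clause case, `C` not a tautology: `z ∈ A i` gives `¬ C.Holds (fun i => maj (fun j => unfl z (i, j)))`, and `maj (fun j => unfl z (i, j)) = yv m z i` (`maj_eq`), `holds_iff`;
`C` a tautology: `A i` is empty (`taut_holds`), use the second alternative with `K = ∅`.  Premise case: if all `(l j).Holds` then `(l i).Holds`: contraposition.
`hlast`: `N - 1`.  With `wt_main`, dividing by `(1 + 1/8) ^ (n * b) > 0`, get the hypothesis of `num_le`.
-/

set_option autoImplicit false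
open scoped Classical

namespace H49LF

theorem main {e f n k t b s N K : ℕ} (hK : K = 64 * 8 ^ e * ((f + 1) * (e + 1)))
    (𝒞 : Set (MajorityLifting.Clause (Fin n))) (hC : ∀ C ∈ 𝒞, C.card ≤ k) (hk : K * (k + 1) ≤ t) (hs : K * s ≤ t)
    (hb : Odd b) (hn : K * n ≤ t * 2 ^ (b / K)) (hPC : ¬ MajorityLifting.PC 𝒞 t (fun _ => 1))
    (hR : MajorityLifting.Refutes b e s f 𝒞 N) : 2 ^ (t / K) ≤ N := by
  obtain ⟨l, hN, hlast, hl⟩ := hR
  obtain ⟨m, hm⟩ := hb
  obtain ⟨a, ha⟩ : ∃ a, a = (f + 1) * (e + 1) := ⟨_, rfl⟩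
  obtain ⟨w, hw⟩ : ∃ w, w = t / (4 * a) := ⟨_, rfl⟩
  have hapos : 1 ≤ a := by
    rw [ha]
    exact Nat.mul_pos (Nat.succ_pos _) (Nat.succ_pos _)
  have h8 : 1 ≤ 8 ^ e := Nat.one_le_pow _ _ (by norm_num)
  have hKa : 64 * a ≤ K := by
    rw [hK, ← ha]
    calc 64 * a = 64 * 1 * a := by ring
      _ ≤ 64 * 8 ^ e * a := Nat.mul_le_mul_right _ (Nat.mul_le_mul_left _ h8)
  have hKf : 64 * (f + 1) ≤ K := by
    refine le_trans (Nat.mul_le_mul_left _ ?_) hKa
    rw [ha]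
    exact Nat.le_mul_of_pos_right _ (Nat.succ_pos _)
  have hKt : K ≤ t := le_trans (Nat.le_mul_of_pos_right _ (Nat.succ_pos k)) hk
  have hKk : K * k ≤ t := le_trans (Nat.mul_le_mul_left _ (Nat.le_succ k)) hk
  have hwt : 4 * (a * w) ≤ t := by
    rw [hw, ← mul_assoc]
    exact Nat.mul_div_le t (4 * a)
  have hew : 4 * ((f + 1) * (e * w)) ≤ t := by
    refine le_trans (Nat.mul_le_mul_left _ ?_) hwt
    rw [ha, mul_assoc]
    exact Nat.mul_le_mul_left _ (Nat.mul_le_mul_right _ (Nat.le_succ e))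
  have hfs : 64 * ((f + 1) * s) ≤ t := by
    refine le_trans ?_ hs
    rw [← mul_assoc]
    exact Nat.mul_le_mul_right _ hKf
  have hew1 : e * w ≤ (f + 1) * (e * w) := Nat.le_mul_of_pos_left _ (Nat.succ_pos f)
  have hs1 : s ≤ (f + 1) * s := Nat.le_mul_of_pos_left _ (Nat.succ_pos f)
  have hk1 : 64 * k ≤ t := by
    refine le_trans (Nat.mul_le_mul_right _ ?_) hKk
    omega
  have hE1 : (f + 1) * (e * w + s) ≤ t := by
    rw [mul_add]
    omega
  have hE2 : (e * w + s) + k ≤ t := by omega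
  obtain ⟨A, hA⟩ : ∃ A : ℕ → Set (Fin (n * b) → ZMod 2), ∀ i, A i = {z | ¬ (l i).Holds (unfl z)} := ⟨_, fun _ => rfl⟩
  have hPC' := PC_bridge 𝒞 (fun C hC' => (hC C hC').trans (by omega)) hPC
  have hyv : ∀ z : Fin (n * b) → ZMod 2, (fun i : Fin n => MajorityLifting.maj (fun j => unfl z (i, j))) = yv m z := by
    intro z
    funext i
    exact maj_eq hm _
  have hmain := thmL (n := n) (N := N) (k := k) (e := e) (t := s) (f := f) (w := w) (E := t) (s := m) (b := b) hm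
    (fun C : {C : MajorityLifting.Clause (Fin n) // C ∈ 𝒞 ∧ ¬ Taut C} => cS C.1)
    (fun C : {C : MajorityLifting.Clause (Fin n) // C ∈ 𝒞 ∧ ¬ Taut C} => cσ C.1)
    (fun C => (card_cS C.1).trans (hC C.1 C.2.1)) (q := 1 / 8) (by norm_num) (by norm_num) hPC' hE1 hE2 A
    (fun i _ => by
      obtain ⟨P, h, h1, h2, h3⟩ := line_bridge (l i)
      exact ⟨P, h, h1, h2, by rw [hA, h3]⟩)
    (fun i hi => by
      rcases hl i hi with ⟨C, hC𝒞, hCi⟩ | ⟨J, hJ, hJi, himp⟩
      · by_cases hT : Taut C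
        · refine Or.inr ⟨∅, by simp, by simp, fun x hx => ?_⟩
          exfalso
          rw [hA] at hx
          exact hx (hCi (unfl x) (taut_holds hT _))
        · refine Or.inl ⟨⟨C, hC𝒞, hT⟩, fun z hz => ?_⟩
          rw [hA] at hz
          have h2 : ¬ MajorityLifting.Clause.Holds C (fun i => MajorityLifting.maj (fun j => unfl z (i, j))) :=
            fun h3 => hz (hCi (unfl z) h3)
          rw [hyv] at h2
          exact (holds_iff hT (yv m z)).1 h2
      · refine Or.inr ⟨J, hJ, hJi, fun x hx => ?_⟩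
        by_contra hcon
        push Not at hcon
        rw [hA] at hx
        refine hx (himp (unfl x) fun j hj => ?_)
        have h2 := hcon j hj
        rw [hA] at h2
        exact not_not.1 h2)
    ⟨N - 1, by omega, by
      rw [hA]
      exact Set.eq_univ_of_forall fun z => hlast (unfl z)⟩
  have hwt' := wt_main (n := n) hm
  have hpos : (0 : ℝ) < (1 + (1 / 8 : ℝ)) ^ (n * b) := by positivity
  have hfin : (1 + (1 / 8 : ℝ)) ^ (n * b) * Real.exp (-(n * ((1 / 2) * (1 / 2) ^ m))) ≤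
      (1 + (1 / 8 : ℝ)) ^ (n * b) * (N * (1 - (1 / 8 : ℝ) ^ e / 2) ^ w) := by
    refine hwt'.trans (hmain.trans (le_of_eq ?_))
    ring
  have hfin2 := le_of_mul_le_mul_left hfin hpos
  rw [hw, ha] at hfin2
  exact num_le hm hK hKt hn hfin2

end H49LF
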