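import Pool.Agent.H49.LF.Ker
import Pool.Agent.H96.RE.PolRM

/-!
ROW Op (the operator `Rop`; about 120 lines).  `b = 2 s + 1`.  PROOF (uses only the statements of Ker.lean).
`flat_fpf`: `flat x (finProdFinEquiv (i, j)) = x i j`.
`mono_flat`: `mono T (flat x) = ∏ i, ∏ j ∈ blkT T i, x i j` (the elements of `T` are the `finProdFinEquiv (i, j)`, `j ∈ blkT T i`; e.g. write `∏_(k ∈ T) f k =
∏ k, if k ∈ T then f k else 1`, `Fintype.prod_equiv finProdFinEquiv.symm`, `Fintype.prod_prod_type`, `Finset.prod_filter`).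
`yv_flat`: `yv s (flat x) i = mj s (x i)`.
`Rop_mono`: with `mono_flat`: `Rop c (mono T) x = ∑ x', ∏ i, (kk s (c i) (x i) (x' i) * ∏ j ∈ blkT T i, x' i j) = ∏ i, ∑ u', kk s (c i) (x i) u' * ∏ j ∈ blkT T i, u' j`
(`Finset.prod_univ_sum`, `Fintype.piFinset_univ`) `= ∏ i, ∏ j ∈ blkT T i, x i j` (`kk_mono`).
`Rop_comp`: a term with `∏ i, kk s (c i) (x i) (x' i) ≠ 0` has `mj s (x' i) = c i` for all `i` (`kk_off`), i.e. `yv s (flat x') = c`.
`Rop_mulX`: right side: unfold `Rop`, `Finset.mul_sum`, `Finset.sum_comm`; for fixed `x'`: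
`∑ v, kk s (c i) (x i) v * v j * ((∏ l, kk s (c l) (Function.update x i v l) (x' l)) * φ (flat x'))`; the product is
`kk s (c i) v (x' i) * ∏ l ∈ univ.erase i, kk s (c l) (x l) (x' l)` (`Finset.mul_prod_erase`), so by `kk_comp` the sum is
`kk s (c i) (x i) (x' i) * x' i j * ∏ l ∈ univ.erase i, … * φ (flat x') = (∏ l, kk s (c l) (x l) (x' l)) * (x' i j * φ (flat x'))`, and `x' i j = flat x' (finProdFinEquiv (i, j))`.
-/

set_option autoImplicit false
open scoped Classical

namespace H49LF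

open H96RE

theorem flat_fpf {n b : ℕ} (x : Fin n → Fin b → ZMod 2) (i : Fin n) (j : Fin b) : flat x (finProdFinEquiv (i, j)) = x i j := by
  unfold flat
  rw [Equiv.symm_apply_apply]

theorem mono_flat {n b : ℕ} (T : Finset (Fin (n * b))) (x : Fin n → Fin b → ZMod 2) :
    mono T (flat x) = ∏ i, ∏ j ∈ blkT T i, x i j := by
  have h1 : mono T (flat x) = ∏ k, if k ∈ T then flat x k else 1 := by
    unfold mono
    rw [Finset.prod_ite_mem, Finset.univ_inter]
  rw [h1, ← Fintype.prod_equiv finProdFinEquiv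
    (fun p : Fin n × Fin b => if finProdFinEquiv p ∈ T then x p.1 p.2 else 1) (fun k => if k ∈ T then flat x k else 1)
    (fun p => by
      have h2 := flat_fpf x p.1 p.2
      have h3 : finProdFinEquiv (p.1, p.2) = finProdFinEquiv p := rfl
      rw [h3] at h2
      rw [h2]), Fintype.prod_prod_type]
  refine Finset.prod_congr rfl fun i _ => ?_
  unfold blkT
  rw [Finset.prod_filter]

theorem yv_flat {n b : ℕ} (s : ℕ) (x : Fin n → Fin b → ZMod 2) (i : Fin n) : yv s (flat x) i = mj s (x i) := by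
  unfold yv
  have h1 : (fun j => flat x (finProdFinEquiv (i, j))) = x i := by
    funext j
    exact flat_fpf x i j
  rw [h1]

theorem Rop_mono {n b s : ℕ} (hb : b = 2 * s + 1) {T : Finset (Fin (n * b))} (hT : T ∈ TT n b s) (c : Fin n → ZMod 2)
    (x : Fin n → Fin b → ZMod 2) : Rop s c (mono T) x = mono T (flat x) := by
  unfold Rop
  have h1 : ∀ x' : Fin n → Fin b → ZMod 2, (∏ i, kk s (c i) (x i) (x' i)) * mono T (flat x') =
      ∏ i, (kk s (c i) (x i) (x' i) * ∏ j ∈ blkT T i, x' i j) := by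
    intro x'
    rw [mono_flat, Finset.prod_mul_distrib]
  rw [Finset.sum_congr rfl fun x' _ => h1 x']
  have h2 := Finset.prod_univ_sum (fun _ : Fin n => (Finset.univ : Finset (Fin b → ZMod 2)))
    (fun i u' => kk s (c i) (x i) u' * ∏ j ∈ blkT T i, u' j)
  rw [Fintype.piFinset_univ] at h2
  rw [← h2, mono_flat]
  refine Finset.prod_congr rfl fun i _ => ?_
  exact kk_mono hb (hT i) (c i) (x i)

theorem Rop_comp {n b s : ℕ} (hb : b = 2 * s + 1) (h : (Fin n → ZMod 2) → ZMod 2) (φ : (Fin (n * b) → ZMod 2) → ZMod 2)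
    (c : Fin n → ZMod 2) (x : Fin n → Fin b → ZMod 2) :
    Rop s c (fun z => h (yv s z) * φ z) x = h c * Rop s c φ x := by
  unfold Rop
  rw [Finset.mul_sum]
  refine Finset.sum_congr rfl fun x' _ => ?_
  by_cases h0 : ∏ i, kk s (c i) (x i) (x' i) = 0
  · rw [h0]
    ring
  · have h1 : yv s (flat x') = c := by
      funext i
      rw [yv_flat]
      by_contra hne
      apply h0
      exact Finset.prod_eq_zero (Finset.mem_univ i) (kk_off hb hne (x i))
    show (∏ i, kk s (c i) (x i) (x' i)) * (h (yv s (flat x')) * φ (flat x')) = _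
    rw [h1]
    ring

theorem Rop_mulX {n b s : ℕ} (hb : b = 2 * s + 1) (i : Fin n) (j : Fin b) (φ : (Fin (n * b) → ZMod 2) → ZMod 2)
    (c : Fin n → ZMod 2) (x : Fin n → Fin b → ZMod 2) :
    Rop s c (mulX (finProdFinEquiv (i, j)) φ) x =
      ∑ v : Fin b → ZMod 2, kk s (c i) (x i) v * v j * Rop s c φ (Function.update x i v) := by
  unfold Rop
  have h1 : ∀ v : Fin b → ZMod 2, kk s (c i) (x i) v * v j *
      ∑ x' : Fin n → Fin b → ZMod 2, (∏ l, kk s (c l) (Function.update x i v l) (x' l)) * φ (flat x') =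
      ∑ x' : Fin n → Fin b → ZMod 2, kk s (c i) (x i) v * v j *
        ((∏ l, kk s (c l) (Function.update x i v l) (x' l)) * φ (flat x')) := fun v => Finset.mul_sum _ _ _
  rw [Finset.sum_congr rfl fun v _ => h1 v, Finset.sum_comm]
  refine Finset.sum_congr rfl fun x' _ => ?_
  have h2 : ∀ v : Fin b → ZMod 2, (∏ l, kk s (c l) (Function.update x i v l) (x' l)) =
      kk s (c i) v (x' i) * ∏ l ∈ Finset.univ.erase i, kk s (c l) (x l) (x' l) := by
    intro v
    rw [← Finset.mul_prod_erase Finset.univ _ (Finset.mem_univ i), Function.update_self]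
    congr 1
    refine Finset.prod_congr rfl fun l hl => ?_
    rw [Function.update_of_ne (Finset.ne_of_mem_erase hl)]
  have h3 : ∀ v : Fin b → ZMod 2, kk s (c i) (x i) v * v j *
        ((∏ l, kk s (c l) (Function.update x i v l) (x' l)) * φ (flat x')) =
      (kk s (c i) (x i) v * v j * kk s (c i) v (x' i)) *
        ((∏ l ∈ Finset.univ.erase i, kk s (c l) (x l) (x' l)) * φ (flat x')) := by
    intro v
    rw [h2]
    ring
  rw [Finset.sum_congr rfl fun v _ => h3 v, ← Finset.sum_mul, kk_comp hb,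
    ← Finset.mul_prod_erase Finset.univ _ (Finset.mem_univ i)]
  have h4 : mulX (finProdFinEquiv (i, j)) φ (flat x') = x' i j * φ (flat x') := by
    unfold mulX
    rw [flat_fpf]
  rw [h4]
  ring

end H49LF
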