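import Mathlib

/-!
Definitions used in the hand-in statement (helper49): clauses, polynomial calculus over `F_2`, composition with majorities,
resolution over polynomials.
-/

set_option autoImplicit false
open scoped Classical

namespace MajorityLifting

/-- The 0/1 points of the variables `V`, as vectors over the field with two elements. -/
abbrev Pt (V : Type) := V → ZMod 2

/-- The function `g` is a polynomial of degree at most `d` over the field with two elements. -/
def DegLE {V : Type} [Fintype V] (d : ℕ) (g : Pt V → ZMod 2) : Prop :=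
  ∃ a : Finset V → ZMod 2, ∀ x, g x = ∑ T ∈ Finset.univ.filter (fun T : Finset V => T.card ≤ d), a T * ∏ v ∈ T, x v

/-- A clause: a finite set of literals; the literal `(v, c)` says `x_v = c`. -/
abbrev Clause (V : Type) := Finset (V × ZMod 2)

/-- The clause is true at the point `x`. -/
def Clause.Holds {V : Type} (C : Clause V) (x : Pt V) : Prop := ∃ l ∈ C, x l.1 = l.2

/-- What polynomial calculus over `F_2` derives from the clauses `𝒞` in degree `t`: the indicator of the points which
falsify a clause with at most `t` literals; sums; and, if `p` is derived and has degree at most `d` with `d + 1 ≤ t`, the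
product of `p` with a variable. (Polynomials are considered as functions on 0/1 points.) -/
inductive PC {V : Type} [Fintype V] (𝒞 : Set (Clause V)) (t : ℕ) : (Pt V → ZMod 2) → Prop
  | ax (C : Clause V) : C ∈ 𝒞 → C.card ≤ t → PC 𝒞 t (fun x => if C.Holds x then 0 else 1)
  | zero : PC 𝒞 t (fun _ => 0)
  | add (p q : Pt V → ZMod 2) : PC 𝒞 t p → PC 𝒞 t q → PC 𝒞 t (fun x => p x + q x)
  | mul (p : Pt V → ZMod 2) (d : ℕ) (v : V) : PC 𝒞 t p → DegLE d p → d + 1 ≤ t → PC 𝒞 t (fun x => x v * p x)

/-- The majority of the `b` bits `u`. -/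
noncomputable def maj {b : ℕ} (u : Fin b → ZMod 2) : ZMod 2 :=
  if b < 2 * (Finset.univ.filter (fun j => u j = 1)).card then 1 else 0

/-- A proof line: the disjunction of the polynomial equations `g = 0`, `g ∈ E`, of degree at most `e` (any number of
them) and of one polynomial equation `p = 0` of degree at most `s`. -/
structure Line (V : Type) [Fintype V] (e s : ℕ) where
  E : Set (Pt V → ZMod 2)
  hE : ∀ g ∈ E, DegLE e g
  p : Pt V → ZMod 2
  hp : DegLE s p

/-- The line is true at the point `x`. -/
def Line.Holds {V : Type} [Fintype V] {e s : ℕ} (l : Line V e s) (x : Pt V) : Prop := (∃ g ∈ l.E, g x = 0) ∨ l.p x = 0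

/-- The CNF `𝒞` in the variables `y_i` (`i < n`), composed with the majorities `y_i = maj (x_(i,1), …, x_(i,b))`, has a
refutation with `N` lines: every line is implied by a composed clause or by at most `f` earlier lines; the last line is
false everywhere. -/
def Refutes {n : ℕ} (b e s f : ℕ) (𝒞 : Set (Clause (Fin n))) (N : ℕ) : Prop :=
  ∃ l : ℕ → Line (Fin n × Fin b) e s, 1 ≤ N ∧ (∀ x, ¬ (l (N - 1)).Holds x) ∧
    ∀ i < N, (∃ C ∈ 𝒞, ∀ x : Pt (Fin n × Fin b), C.Holds (fun i => maj (fun j => x (i, j))) → (l i).Holds x) ∨
      ∃ J : Finset ℕ, J.card ≤ f ∧ (∀ j ∈ J, j < i) ∧ ∀ x, (∀ j ∈ J, (l j).Holds x) → (l i).Holds x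

end MajorityLifting
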